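import Pool.Agent.Run7.h908.PL.KILL2
import Pool.Agent.Run7.h973.TG.LAST

/-!
# Project PRL: LAST2 (helper908, after LAST of helper973 and helper437)
-/

set_option autoImplicit false
set_option linter.all false

open Polynomial IsDedekindDomain
open scoped Classical

namespace Run7.h908.PL

open Pool.Agent.N874.PP (Ov Ev Sq1)
open Pool.Agent.N352.PJ (IsGen Crd LocIm SelZero Fam GoodR Ht dsc)
open Run7.h875.TS (chi cd IsPC GSq irrD dg NRs uT sqf prD sqL sz Tr)
open Run7.h784.TG
open Run7.h286.PL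
open Run7.h437.TS (recip_pt abs_fac2 natDegree_prod_S trs expand_e chi_prod aeval_zero_iff)
open UniqueFactorizationMonoid
open Run7.h973.TG (ringChar_ne prod_good Jt nco wsum mem_cmp Jt_bound prod_nf)
open Run7.h908.TG (compare)

theorem irr_of_nf {F : Type} [Field F] {p : F[X]} (hp : p.Monic)
    (h : Multiset.card (normalizedFactors p) = 1) : Irreducible p := by
  obtain ⟨a, ha⟩ := Multiset.card_eq_one.1 h
  have h1 := prod_nf hp
  rw [ha, Multiset.prod_singleton] at h1
  rw [← h1]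
  exact irreducible_of_normalized_factor a (by rw [ha]; simp)

/-- **LAST2**. -/
theorem T_LAST2 (hW : P_W) (hDic : P_DIC) (hC : P_COMB) (hStk : P_STK) : P_LAST2 := by
  intro k _ _ g N r f hfm hfull
  obtain ⟨C₁, hW⟩ := hW k g N r f hfm hfull
  haveI := Fintype.ofFinite k
  have hk := ringChar_ne hfm.two
  have hfmon : f.Monic := hfm.fam.ht.mon
  have hfdeg : f.natDegree = 2 * g + 1 := hfm.fam.ht.deg
  have hd0 : dsc g f ≠ 0 := hfm.fam.sq.ne_zero
  set dd : ℕ := (dsc g f).natDegree with hdd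
  set B₀ : ℕ := nco g * 2 ^ ((2 * g + 1) * (2 * g + 1)) with hB₀
  refine ⟨nco g * C₁ + (1 + B₀) * (3 + dd), ?_⟩
  intro K L O _ _ _ _ _ _ _ _ _ _ _ _ _ _ θ hgen S η hS m hm
  obtain ⟨F, _, _, _, hfr, hcd, hsum, hfew⟩ := trs k m hm
  set sP : k[X] → ℝ := fun P =>
    ((quadraticChar k (-1) ^ (P.natDegree * m) : ℤ) : ℝ) * (if η P then 1 else -1) with hsP
  set x : k[X] → F → ℝ := fun P t => chi (aeval t P) with hx
  have hsP1 : ∀ P, |sP P| = 1 := by
    intro P
    rw [hsP]
    dsimp only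
    have h1 : |((quadraticChar k (-1) ^ (P.natDegree * m) : ℤ) : ℝ)| = 1 := by
      push_cast
      rw [abs_pow]
      rcases quadraticChar_dichotomy (F := k) (a := -1) (by simp) with h | h <;> rw [h] <;> simp
    rw [abs_mul, h1]
    split_ifs <;> simp
  set E : ℝ := C₁ * (1 + dg S) * √(cd F) with hE
  have hdg0 : (0 : ℝ) ≤ (dg S : ℝ) := by positivity
  -- the main sum
  have hmain : |(∑ t : F, Jt g f t * ∏ P ∈ S, (sP P * x P t + 1)) - cd F * (1 / (2 * g + 1 : ℕ))| ≤
      2 ^ S.card * (nco g * E) := by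
    refine expand_e _ sP x (cd F * (1 / (2 * g + 1 : ℕ))) _ S (fun P => (hsP1 P).le) ?_ ?_
    · have h1 : (∑ t : F, Jt g f t) - cd F * (1 / (2 * g + 1 : ℕ)) =
          ∑ l ∈ Finset.Icc 1 (2 * g + 1), (-1 : ℝ) ^ (l + 1) / l *
            ∑ c ∈ Run7.h784.TG.cmp (2 * g + 1) l,
              ((∑ t : F, ((FacR (evt (k := k) t) f c).ncard : ℝ)) - cd F) := by
        have h2 := hC.2 (2 * g + 1) (by omega)
        rw [← h2, Finset.mul_sum]
        unfold Jt
        rw [Finset.sum_comm, ← Finset.sum_sub_distrib]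
        refine Finset.sum_congr rfl fun l _ => ?_
        rw [← Finset.mul_sum, Finset.sum_comm, Finset.sum_sub_distrib, Finset.sum_const,
          nsmul_eq_mul]
        ring
      rw [h1]
      refine wsum g _ _ ?_
      intro l hl c hc
      obtain ⟨hc1, hc2⟩ := mem_cmp hc
      obtain ⟨hW1, -, -⟩ := hW l c hc1 hc2
      refine (hW1 F).trans ?_
      rw [hE]
      refine mul_le_mul_of_nonneg_right ?_ (Real.sqrt_nonneg _)
      nlinarith [mul_nonneg (Nat.cast_nonneg C₁ : (0:ℝ) ≤ C₁) hdg0]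
    · intro A hA hA0
      have hAg := prod_good (dsc g f) A fun P hP => hS P (hA hP)
      have hApos : 0 < (∏ P ∈ A, P).natDegree := by
        obtain ⟨P, hP⟩ := Finset.nonempty_iff_ne_empty.2 hA0
        have h1 : P ∣ ∏ P ∈ A, P := Finset.dvd_prod_of_mem _ hP
        exact ((hS P (hA hP)).2.1.natDegree_pos).trans_le (natDegree_le_of_dvd h1 hAg.1.ne_zero)
      have h1 : (∑ t : F, Jt g f t * ∏ P ∈ A, x P t) =
          ∑ l ∈ Finset.Icc 1 (2 * g + 1), (-1 : ℝ) ^ (l + 1) / l *
            ∑ c ∈ Run7.h784.TG.cmp (2 * g + 1) l,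
              (∑ t : F, chi (aeval t (∏ P ∈ A, P)) * ((FacR (evt (k := k) t) f c).ncard : ℝ)) := by
        unfold Jt
        simp_rw [Finset.sum_mul]
        rw [Finset.sum_comm]
        refine Finset.sum_congr rfl fun l _ => ?_
        simp_rw [mul_assoc]
        rw [← Finset.mul_sum]
        congr 1
        simp_rw [Finset.sum_mul]
        rw [Finset.sum_comm]
        refine Finset.sum_congr rfl fun c _ => Finset.sum_congr rfl fun t _ => ?_
        rw [map_prod, chi_prod, mul_comm]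
      rw [h1]
      refine wsum g _ _ ?_
      intro l hl c hc
      obtain ⟨hc1, hc2⟩ := mem_cmp hc
      obtain ⟨-, hW2, -⟩ := hW l c hc1 hc2
      refine (hW2 (∏ P ∈ A, P) (Or.inr ⟨hAg.1, hAg.2, hApos⟩) F).trans ?_
      rw [hE]
      refine mul_le_mul_of_nonneg_right ?_ (Real.sqrt_nonneg _)
      refine mul_le_mul_of_nonneg_left ?_ (Nat.cast_nonneg _)
      have h3 : (((∏ P ∈ A, P).natDegree : ℕ) : ℝ) ≤ ((dg S : ℕ) : ℝ) := by
        exact_mod_cast natDegree_prod_S S A hA
      linarith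
  -- pointwise
  set cond : k[X] → Prop := fun Q => ¬ Q ∣ dsc g f ∧ nr O Q = 1 ∧ Q ∉ S ∧
          ∀ P ∈ S, (∃ z : k[X], P ∣ z ^ 2 - Q) ↔ η P with hcond
  set G : F → Prop := fun t => (minpoly k t).natDegree = m ∧
    aeval t (dsc g f) ≠ 0 ∧ ∀ P ∈ S, aeval t P ≠ 0 with hG
  set X : F → ℝ := fun t => Jt g f t * ∏ P ∈ S, ((sP P * x P t + 1) / 2) with hX
  have hJB : ∀ t : F, |Jt g f t| ≤ (B₀ : ℝ) := by
    intro t
    have h1 := Jt_bound g f hfmon hfdeg t
    rw [hB₀]
    push_cast
    exact h1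
  have hPB : ∀ t : F, |∏ P ∈ S, ((sP P * x P t + 1) / 2)| ≤ 1 := by
    intro t
    rw [Finset.abs_prod]
    refine Finset.prod_le_one (fun _ _ => abs_nonneg _) fun P _ => ?_
    exact abs_fac2 (hsP1 P).le (Run7.h437.TS.abs_chi_le _)
  have hJgood : ∀ t : F, aeval t (dsc g f) ≠ 0 →
      Jt g f t = if Irreducible (f.map (evt (k := k) t)) then (1 : ℝ) else 0 := by
    intro t ht
    obtain ⟨-, hsqf, -⟩ := hStk k F g N r f t hfm ht
    have h1 : (f.map (evt (k := k) t)).natDegree = 2 * g + 1 := by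
      rw [hfmon.natDegree_map, hfdeg]
    rw [hC.1 F (f.map (evt (k := k) t)) (2 * g + 1) (hfmon.map _) hsqf h1 (by omega)]
    rfl
  have hone : ∀ t, G t → cond (minpoly k t) → X t = 1 := by
    rintro t ⟨hdeg, hdsc, hPS⟩ ⟨hnd, hnr, -, hη⟩
    obtain ⟨h1, -⟩ := hDic k K L O g N r f θ hfm hgen F t (by rw [hdeg, hfr]) hnd
    rw [hnr] at h1
    have hirr : Irreducible (f.map (evt (k := k) t)) := irr_of_nf (hfmon.map _) h1.symm
    rw [hX]
    dsimp only
    rw [hJgood t hdsc, if_pos hirr, one_mul]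
    refine Finset.prod_eq_one fun P hP => ?_
    obtain ⟨hPm, hPi, -⟩ := hS P hP
    have h2 := recip_pt hk t (by rw [hdeg, hfr]) hPm hPi (hPS P hP)
    have h3 := hη P hP
    rw [h2, hdeg] at h3
    rw [hsP, hx]
    dsimp only
    unfold chi
    rcases quadraticChar_dichotomy (F := k) (a := -1) (by simp) with h | h <;>
      rcases quadraticChar_dichotomy (F := F) (a := aeval t P) (hPS P hP) with h' | h' <;>
      rw [h, h'] at h3 <;> rw [h, h'] <;>
      rcases neg_one_pow_eq_or ℤ (P.natDegree * m) with h'' | h'' <;>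
      (try rw [h''] at h3) <;> (try rw [h'']) <;>
      by_cases hη' : η P <;> simp [hη'] at h3 ⊢
  have hzero : ∀ t, G t → ¬ cond (minpoly k t) → X t = 0 := by
    intro t hGt hc
    rw [hX]
    dsimp only
    by_contra hne
    apply hc
    rw [mul_eq_zero, not_or, Finset.prod_eq_zero_iff] at hne
    push Not at hne
    obtain ⟨hne1, hne2⟩ := hne
    obtain ⟨hdeg, hdsc, hPS⟩ := hGt
    have hnd : ¬ minpoly k t ∣ dsc g f := fun h => hdsc ((aeval_zero_iff t _).2 h)
    refine ⟨hnd, ?_, ?_, ?_⟩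
    · rw [hJgood t hdsc] at hne1
      have hirr : Irreducible (f.map (evt (k := k) t)) := by
        by_contra h
        exact hne1 (if_neg h)
      obtain ⟨h1, -⟩ := hDic k K L O g N r f θ hfm hgen F t (by rw [hdeg, hfr]) hnd
      rw [h1]
      unfold nf
      rw [normalizedFactors_irreducible hirr]
      rfl
    · intro h
      exact hPS _ h (minpoly.aeval k t)
    · intro P hP
      obtain ⟨hPm, hPi, -⟩ := hS P hP
      have h1 := hne2 P hP
      have h2 := recip_pt hk t (by rw [hdeg, hfr]) hPm hPi (hPS P hP)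
      rw [h2, hdeg]
      have h3 : sP P * x P t ≠ -1 := by
        intro h
        apply h1
        rw [h]
        norm_num
      rw [hsP, hx] at h3
      dsimp only at h3
      unfold chi at h3
      rcases quadraticChar_dichotomy (F := k) (a := -1) (by simp) with h | h <;>
        rcases quadraticChar_dichotomy (F := F) (a := aeval t P) (hPS P hP) with h' | h' <;>
        rw [h, h'] at h3 <;> rw [h, h'] <;>
        rcases neg_one_pow_eq_or ℤ (P.natDegree * m) with h'' | h'' <;>
        (try rw [h''] at h3) <;> (try rw [h'']) <;>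
        by_cases hη : η P <;> simp [hη] at h3 ⊢
  have hbadX : ∀ t, |X t| ≤ (B₀ : ℝ) := by
    intro t
    rw [hX]
    dsimp only
    rw [abs_mul]
    calc |Jt g f t| * |∏ P ∈ S, ((sP P * x P t + 1) / 2)| ≤ B₀ * 1 :=
          mul_le_mul (hJB t) (hPB t) (abs_nonneg _) (Nat.cast_nonneg _)
      _ = B₀ := mul_one _
  have hbad : ∀ s : Finset F, (∀ t ∈ s, ¬ G t) → (s.card : ℝ) ≤ 2 * √(cd F) + dd + dg S := by
    intro s hs
    have h1 : s ⊆
        (Finset.univ.filter fun t : F => (minpoly k t).natDegree ≠ m) ∪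
        ((Finset.univ.filter fun t : F => aeval t (dsc g f) = 0) ∪
        (S.biUnion fun P => Finset.univ.filter fun t : F => aeval t P = 0)) := by
      intro t ht
      rw [Finset.mem_union, Finset.mem_union, Finset.mem_filter, Finset.mem_filter,
        Finset.mem_biUnion]
      by_contra hcon
      push Not at hcon
      obtain ⟨h1, h2, h3⟩ := hcon
      apply hs t ht
      refine ⟨h1 (Finset.mem_univ _), h2 (Finset.mem_univ _), fun P hP h => ?_⟩
      exact h3 P hP (by simp [h])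
    have h2 := (Finset.card_le_card h1).trans ((Finset.card_union_le _ _).trans
      (add_le_add le_rfl ((Finset.card_union_le _ _).trans (add_le_add le_rfl
        Finset.card_biUnion_le))))
    have h3 : (Finset.univ.filter fun t : F => aeval t (dsc g f) = 0).card ≤ dd :=
      Run7.h437.TS.card_zero_le hd0
    have h4 : ∑ P ∈ S, (Finset.univ.filter fun t : F => aeval t P = 0).card ≤ dg S :=
      Finset.sum_le_sum fun P hP => Run7.h437.TS.card_zero_le (hS P hP).1.ne_zero
    have h5 : (s.card : ℝ) ≤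
        ((Finset.univ.filter fun t : F => (minpoly k t).natDegree ≠ m).card : ℝ) + (dd + dg S) := by
      exact_mod_cast h2.trans (add_le_add le_rfl (add_le_add h3 h4))
    linarith
  have hfac : ∑ t : F, X t =
      (1 / 2) ^ S.card * ∑ t : F, Jt g f t * ∏ P ∈ S, (sP P * x P t + 1) := by
    rw [Finset.mul_sum]
    refine Finset.sum_congr rfl fun t _ => ?_
    rw [hX]
    dsimp only
    rw [Finset.prod_div_distrib, Finset.prod_const, one_div_pow]
    ring
  have hcmp := compare F m cond G X B₀ (2 * √(cd F) + dd + dg S) (Nat.cast_nonneg _) hsum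
    (fun t h => h.1) hone hzero hbadX hbad
  have hs1 : 1 ≤ √(cd F) := Run7.h437.TS.one_le_sqrt_cd
  have hdd0 : (0 : ℝ) ≤ (dd : ℝ) := Nat.cast_nonneg _
  have hB0 : (0 : ℝ) ≤ (B₀ : ℝ) := Nat.cast_nonneg _
  have htot : |∑ t : F, X t - del0 g * (1 / 2) ^ S.card * cd F| ≤ nco g * C₁ * (1 + dg S) * √(cd F) := by
    have e1 : ∑ t : F, X t - del0 g * (1 / 2) ^ S.card * cd F = (1 / 2) ^ S.card *
        ((∑ t : F, Jt g f t * ∏ P ∈ S, (sP P * x P t + 1)) - cd F * (1 / (2 * g + 1 : ℕ))) := by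
      rw [hfac]
      unfold del0
      push_cast
      ring
    rw [e1, abs_mul, abs_of_pos (by positivity)]
    refine (mul_le_mul_of_nonneg_left hmain (by positivity)).trans (le_of_eq ?_)
    rw [← mul_assoc, ← mul_pow, hE]
    norm_num
    ring
  rw [← hcd]
  have h6 : ((B₀ : ℝ) + 1) * (2 * √(cd F) + dd + dg S) ≤ (1 + B₀) * (3 + dd) * (1 + dg S) * √(cd F) := by
    have h7 : (2 * √(cd F) + dd + dg S : ℝ) ≤ (3 + dd) * (1 + dg S) * √(cd F) := by
      nlinarith [mul_nonneg hdd0 (by linarith : (0:ℝ) ≤ √(cd F) - 1),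
        mul_nonneg hdg0 (by linarith : (0:ℝ) ≤ √(cd F) - 1),
        mul_nonneg (mul_nonneg hdd0 hdg0) (by linarith : (0:ℝ) ≤ √(cd F)),
        mul_nonneg hdg0 (by linarith : (0:ℝ) ≤ √(cd F))]
    calc ((B₀ : ℝ) + 1) * (2 * √(cd F) + dd + dg S) ≤ ((B₀ : ℝ) + 1) * ((3 + dd) * (1 + dg S) * √(cd F)) :=
          mul_le_mul_of_nonneg_left h7 (by linarith)
      _ = _ := by ring
  have htri : ∀ A B Cc P Q : ℝ, |A - B| ≤ P → |B - Cc| ≤ Q → |A - Cc| ≤ P + Q := by
    intro A B Cc P Q h1 h2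
    rw [abs_le] at h1 h2 ⊢
    constructor <;> linarith
  have h9 := htri _ _ _ _ _ (hcmp.trans h6) htot
  have h10 := div_m (Y := cd F) (c := del0 g * (1 / 2) ^ S.card) hm (by positivity) h9
  refine le_trans (le_of_eq ?_) (h10.trans (le_of_eq ?_))
  · congr!
  · push_cast; ring

end Run7.h908.PL
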