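import Pool.Agent.Run7.h286.PL.StmA
import Pool.Agent.Run7.h875.TS.Cnt

/-!
# Project PRL: S0 (helper908)
-/

set_option autoImplicit false
set_option linter.all false

open Polynomial IsDedekindDomain
open scoped Classical

namespace Run7.h908.PL

open Pool.Agent.N874.PP (Ov Ev Sq1)
open Pool.Agent.N352.PJ (IsGen Crd LocIm SelZero Fam GoodR Ht dsc)
open Run7.h875.TS (chi cd IsPC GSq irrD dg NRs uT sqf prD sqL sz Tr mem_prD prD_mul mem_irrD prod_prD
  mul_div_of_dvd mul_div_self' ndvd_div cls_iff sqr_mul eq_of_dvd)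
open Run7.h784.TG
open Run7.h286.PL

theorem p1 (a b : Prop) : b ↔ (a ↔ (a ↔ b)) := by tauto

theorem p2 {a b c : Prop} (h : ¬ (a ↔ b)) (h5 : b ↔ (a ↔ ¬ c)) : c := by
  by_contra hc
  by_cases ha : a <;> by_cases hb : b <;> simp_all

theorem p3 {a b c : Prop} (hc : c) (h5 : b ↔ (a ↔ ¬ c)) : ¬ (a ↔ b) := by
  by_cases ha : a <;> by_cases hb : b <;> simp_all

section sq

variable {k : Type} [Field k] [Finite k]

theorem sq_iff {P w : k[X]} : (∃ z : k[X], P ∣ z ^ 2 - w) ↔ IsSquare (AdjoinRoot.mk P w) := by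
  constructor
  · rintro ⟨z, hz⟩
    refine ⟨AdjoinRoot.mk P z, ?_⟩
    rw [← map_mul, eq_comm, AdjoinRoot.mk_eq_mk, ← pow_two]
    exact hz
  · rintro ⟨r, hr⟩
    obtain ⟨z, rfl⟩ := AdjoinRoot.mk_surjective r
    refine ⟨z, ?_⟩
    rw [← map_mul, eq_comm, AdjoinRoot.mk_eq_mk, ← pow_two] at hr
    exact hr

/-- Multiplicativity of the classes. -/
theorem sq_mul_iff {P x y : k[X]} (hP : Irreducible P) (hx : ¬ P ∣ x) (hy : ¬ P ∣ y) :
    (∃ z : k[X], P ∣ z ^ 2 - x * y) ↔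
      ((∃ z : k[X], P ∣ z ^ 2 - x) ↔ (∃ z : k[X], P ∣ z ^ 2 - y)) := by
  haveI : Fact (Irreducible P) := ⟨hP⟩
  haveI : Finite (AdjoinRoot P) := by
    haveI : Module.Finite k (AdjoinRoot P) := (AdjoinRoot.powerBasis hP.ne_zero).finite
    exact Module.finite_of_finite k
  haveI := Fintype.ofFinite (AdjoinRoot P)
  rw [sq_iff, sq_iff, sq_iff, map_mul]
  have hx' : AdjoinRoot.mk P x ≠ 0 := by rwa [Ne, AdjoinRoot.mk_eq_zero]
  have hy' : AdjoinRoot.mk P y ≠ 0 := by rwa [Ne, AdjoinRoot.mk_eq_zero]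
  by_cases hc : ringChar (AdjoinRoot P) = 2
  · exact ⟨fun _ => ⟨fun _ => FiniteField.isSquare_of_char_two hc _,
      fun _ => FiniteField.isSquare_of_char_two hc _⟩, fun _ => FiniteField.isSquare_of_char_two hc _⟩
  · rw [← quadraticChar_one_iff_isSquare (mul_ne_zero hx' hy'), map_mul,
      ← quadraticChar_one_iff_isSquare hx', ← quadraticChar_one_iff_isSquare hy']
    rcases quadraticChar_dichotomy hx' with h1 | h1 <;>
      rcases quadraticChar_dichotomy hy' with h2 | h2 <;> rw [h1, h2] <;> norm_num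

end sq

section dgp

variable {k : Type} [Field k]

theorem dg_prD {Y : k[X]} (hY : Y.Monic) (hs : Squarefree Y) : dg (prD Y) = Y.natDegree := by
  have h1 := congrArg natDegree (prod_prD hY hs)
  rw [natDegree_prod_of_monic _ _ fun P hP => ((mem_prD hY.ne_zero).1 hP).1] at h1
  exact h1

end dgp

section sel

variable {k K L O : Type} [Field k] [Finite k] [Field K] [Algebra k[X] K]
  [IsFractionRing k[X] K]
  [Field L] [Algebra K L] [Algebra k[X] L] [IsScalarTower k[X] K L] [CommRing O]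
  [IsDedekindDomain O] [Algebra O L] [IsFractionRing O L] [Algebra k[X] O]
  [IsScalarTower k[X] O L] [IsIntegralClosure O k[X] L] {g N : ℕ} {r : k[X]} {f : k[X][X]} {θ : L}

/-- The group depends only on the values of `u` on `S`. -/
theorem selG_congr {S : Finset k[X]} {u u' : k[X] → k[X]} (h : ∀ P ∈ S, u P = u' P) :
    SelG O K f θ S u = SelG O K f θ S u' := by
  unfold SelG
  congr 1
  ext α
  constructor
  · intro hα
    exact ⟨hα.ne, hα.nsq, hα.ev, fun P hP => by rw [← h P hP]; exact hα.tw P hP⟩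
  · intro hα
    exact ⟨hα.ne, hα.nsq, hα.ev, fun P hP => by rw [h P hP]; exact hα.tw P hP⟩

theorem selG_cls (hC : P_CLSU) (hf : Fm g N r f) (hgen : IsGen g K f θ) {S : Finset k[X]}
    {u u' : k[X] → k[X]} (hu : GoodT g f S u) (hu' : GoodT g f S u')
    (h : ∀ P ∈ S, (∃ z : k[X], P ∣ z ^ 2 - u P) ↔ (∃ z : k[X], P ∣ z ^ 2 - u' P)) :
    SelG O K f θ S u = SelG O K f θ S u' := by
  have key : ∀ v v' : k[X] → k[X], GoodT g f S v → GoodT g f S v' →
      (∀ P ∈ S, (∃ z : k[X], P ∣ z ^ 2 - v P) ↔ (∃ z : k[X], P ∣ z ^ 2 - v' P)) →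
      ∀ α : L, SelC O K f θ S v α → SelC O K f θ S v' α := by
    intro v v' hv hv' h
    refine hC k K L O g N r f θ hf hgen S v v' hv hv' fun P hP => ?_
    have h1 := sqr_mul (hv.irr P hP) (hv'.nu P hP) (hv.nu P hP) (h P hP).symm
    exact cls_iff (hv.irr P hP) (hv.nu P hP) h1
  unfold SelG
  congr 1
  ext α
  exact ⟨key u u' hu hu' h _, key u' u hu' hu (fun P hP => (h P hP).symm) _⟩

end sel

/-- **S0**. -/
theorem T_S0 (hLast : P_LAST2) (hCLS : P_CLSU) (hEXS : P_EXS) : P_S0 := by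
  intro k K L O _ _ _ _ _ _ _ _ _ _ _ _ _ _ _ _ g N r f θ hf hfull hgen nrs hnrs
  obtain ⟨C₀, hLast⟩ := hLast k g N r f hf hfull
  refine ⟨C₀, ?_⟩
  intro φ hφ D hD hsf hcop m hm
  set S : Finset k[X] := prD D with hSdef
  have hD0 : D ≠ 0 := hD.ne_zero
  have hmem : ∀ P, P ∈ S ↔ P.Monic ∧ Irreducible P ∧ P ∣ D := fun P => mem_prD hD0
  have hSd : ∀ P ∈ S, P.Monic ∧ Irreducible P ∧ ¬ P ∣ dsc g f := by
    intro P hP
    obtain ⟨h1, h2, h3⟩ := (hmem P).1 hP
    exact ⟨h1, h2, fun h => h2.not_isUnit (hcop.isUnit_of_dvd' h3 h)⟩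
  have hnd : ∀ P ∈ S, ¬ P ∣ D / P := fun P hP => by
    obtain ⟨h1, h2, h3⟩ := (hmem P).1 hP
    exact ndvd_div h2 hsf h3
  have hnrsd : ∀ P : k[X], Irreducible P → ¬ P ∣ nrs P := by
    intro P hP h
    apply hnrs P hP 0
    rw [show (0 : k[X]) ^ 2 - nrs P = - nrs P by ring]
    exact (dvd_neg).2 h
  have hgT : ∀ T : Finset k[X], GoodT g f S (uT nrs T) := by
    intro T
    refine ⟨fun P hP => (hSd P hP).1, fun P hP => (hSd P hP).2.1, fun P hP => (hSd P hP).2.2,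
      fun P hP h => ?_⟩
    unfold uT at h
    split_ifs at h
    · exact hnrsd P (hSd P hP).2.1 h
    · exact (hSd P hP).2.1.not_isUnit (isUnit_of_dvd_one h)
  set A : Finset k[X] := (irrD k m).filter (fun Q => nr O Q = 1 ∧ ¬ Q ∣ D ∧ ¬ Q ∣ dsc g f) with hA
  have hmA : ∀ Q, Q ∈ A ↔ (Q.Monic ∧ Irreducible Q ∧ Q.natDegree = m) ∧ nr O Q = 1 ∧ ¬ Q ∣ D ∧
      ¬ Q ∣ dsc g f := by
    intro Q
    rw [hA, Finset.mem_filter, mem_irrD]
  set τ : k[X] → Finset k[X] := fun Q => S.filter fun P => ¬ ∃ z : k[X], P ∣ z ^ 2 - (D / P) * Q with hτ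
  have hτS : ∀ Q, τ Q ⊆ S := fun Q => Finset.filter_subset _ _
  have hPQ : ∀ Q ∈ A, ∀ P ∈ S, ¬ P ∣ Q := by
    intro Q hQ P hP h
    obtain ⟨⟨q1, q2, -⟩, -, q3, -⟩ := (hmA Q).1 hQ
    obtain ⟨h1, h2, h3⟩ := (hmem P).1 hP
    have := eq_of_dvd h1 h2 q1 q2 h
    exact q3 (this ▸ h3)
  have hval : ∀ Q ∈ A, dimS O K f θ (D * Q) = ld (SelG O K f θ S (uT nrs (τ Q))) := by
    intro Q hQ
    obtain ⟨⟨q1, q2, -⟩, q3, q4, q5⟩ := (hmA Q).1 hQ
    have hQS : Q ∉ S := fun h => q4 ((hmem Q).1 h).2.2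
    have hgood : GoodT g f S (fun P => D / P * Q) := by
      refine ⟨fun P hP => (hSd P hP).1, fun P hP => (hSd P hP).2.1, fun P hP => (hSd P hP).2.2,
        fun P hP h => ?_⟩
      rcases (hSd P hP).2.1.prime.dvd_or_dvd h with h1 | h1
      · exact hnd P hP h1
      · exact hPQ Q hQ P hP h1
    have e1 : dimS O K f θ (D * Q) = ld (SelG O K f θ (insert Q S)
        (Function.update (fun P => D / P * Q) Q D)) := by
      unfold dimS
      rw [prD_mul hD0 q1 q2]
      congr 1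
      refine selG_congr fun P hP => ?_
      rw [Finset.mem_insert] at hP
      by_cases hPQ' : P = Q
      · rw [hPQ', Function.update_self, mul_div_self' q2.ne_zero]
      · rw [Function.update_of_ne hPQ']
        have hPS := hP.resolve_left hPQ'
        obtain ⟨h1, h2, h3⟩ := (hmem P).1 hPS
        exact mul_div_of_dvd h2.ne_zero h3
    rw [e1, (hEXS k K L O g N r f θ hf hfull hgen S _ hgood Q q1 q2 hQS q5 D q4).1 q3]
    congr 1
    refine selG_cls hCLS hf hgen hgood (hgT _) fun P hP => ?_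
    unfold uT
    by_cases hPT : P ∈ τ Q
    · rw [if_pos hPT]
      rw [hτ, Finset.mem_filter] at hPT
      constructor
      · intro h; exact absurd h hPT.2
      · rintro ⟨z, hz⟩; exact absurd hz (hnrs P (hSd P hP).2.1 z)
    · rw [if_neg hPT]
      rw [hτ, Finset.mem_filter, not_and, not_not] at hPT
      constructor
      · intro _; exact ⟨1, by simp⟩
      · intro _; exact hPT hP
  set ψ : Finset k[X] → ℝ := fun T => φ (ld (SelG O K f θ S (uT nrs T))) with hψ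
  have hψ1 : ∀ T, |ψ T| ≤ 1 := fun T => hφ _
  have hsum : ∑ Q ∈ A, φ (dimS O K f θ (D * Q)) =
      ∑ T ∈ S.powerset, ((A.filter fun Q => τ Q = T).card : ℝ) * ψ T := by
    rw [Finset.sum_congr rfl fun Q hQ => by rw [hval Q hQ],
      ← Finset.sum_fiberwise_of_maps_to (g := τ) (t := S.powerset)
        (fun Q _ => Finset.mem_powerset.2 (hτS Q))]
    refine Finset.sum_congr rfl fun T _ => ?_
    have h1 : ∀ Q ∈ A.filter (fun Q => τ Q = T), φ (ld (SelG O K f θ S (uT nrs (τ Q)))) = ψ T := by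
      intro Q hQ
      rw [(Finset.mem_filter.1 hQ).2]
    rw [Finset.sum_congr rfl h1, Finset.sum_const, nsmul_eq_mul]
  have hcount : ∀ T ∈ S.powerset,
      |((A.filter fun Q => τ Q = T).card : ℝ) - del0 g * (1 / 2) ^ S.card * (Nat.card k : ℝ) ^ m / m| ≤
        C₀ * (1 + D.natDegree) * √((Nat.card k : ℝ) ^ m) := by
    intro T hT
    rw [Finset.mem_powerset] at hT
    have h1 := hLast K L O θ hgen S (fun P => (∃ z : k[X], P ∣ z ^ 2 - D / P) ↔ P ∉ T) hSd m hm
    rw [dg_prD hD hsf] at h1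
    have h2 : (A.filter fun Q => τ Q = T) = (irrD k m).filter fun Q => ¬ Q ∣ dsc g f ∧ nr O Q = 1 ∧
        Q ∉ S ∧ ∀ P ∈ S, (∃ z : k[X], P ∣ z ^ 2 - Q) ↔
          ((∃ z : k[X], P ∣ z ^ 2 - D / P) ↔ P ∉ T) := by
      ext Q
      rw [Finset.mem_filter, hmA, Finset.mem_filter, mem_irrD]
      constructor
      · rintro ⟨⟨q1, q2, q3, q4⟩, q5⟩
        refine ⟨q1, q4, q2, fun h => q3 ((hmem Q).1 h).2.2, fun P hP => ?_⟩
        have hQA : Q ∈ A := (hmA Q).2 ⟨q1, q2, q3, q4⟩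
        have h3 := sq_mul_iff (hSd P hP).2.1 (hnd P hP) (hPQ Q hQA P hP)
        have h4 : P ∉ T ↔ ∃ z : k[X], P ∣ z ^ 2 - (D / P) * Q := by
          rw [← q5, hτ, Finset.mem_filter, not_and, not_not]
          exact ⟨fun h => h hP, fun h _ => h⟩
        rw [h4, h3]
        exact p1 _ _
      · rintro ⟨q1, q4, q2, q3, q5⟩
        have q3' : ¬ Q ∣ D := fun h => q3 ((hmem Q).2 ⟨q1.1, q1.2.1, h⟩)
        have hQA : Q ∈ A := (hmA Q).2 ⟨q1, q2, q3', q4⟩
        refine ⟨⟨q1, q2, q3', q4⟩, ?_⟩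
        rw [hτ]
        ext P
        rw [Finset.mem_filter]
        constructor
        · rintro ⟨hP, h⟩
          have h3 := sq_mul_iff (hSd P hP).2.1 (hnd P hP) (hPQ Q hQA P hP)
          rw [h3] at h
          exact p2 h (q5 P hP)
        · intro hP
          have hPS := hT hP
          refine ⟨hPS, ?_⟩
          have h3 := sq_mul_iff (hSd P hPS).2.1 (hnd P hPS) (hPQ Q hQA P hPS)
          rw [h3]
          exact p3 hP (q5 P hPS)
    rw [h2]
    refine le_trans (le_of_eq ?_) h1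
    congr!
  have hfin : |∑ Q ∈ A, φ (dimS O K f θ (D * Q)) -
      del0 g * (Nat.card k : ℝ) ^ m / m * av O K f θ nrs φ S| ≤
      C₀ * 2 ^ S.card * (1 + D.natDegree) * √((Nat.card k : ℝ) ^ m) := by
    have e1 : del0 g * (Nat.card k : ℝ) ^ m / m * av O K f θ nrs φ S =
        ∑ T ∈ S.powerset, (del0 g * (1 / 2) ^ S.card * (Nat.card k : ℝ) ^ m / m) * ψ T := by
      unfold av
      rw [← Finset.mul_sum]
      ring
    rw [hsum, e1, ← Finset.sum_sub_distrib]
    refine (Finset.abs_sum_le_sum_abs _ _).trans ?_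
    have h3 : ∀ T ∈ S.powerset, |((A.filter fun Q => τ Q = T).card : ℝ) * ψ T -
        (del0 g * (1 / 2) ^ S.card * (Nat.card k : ℝ) ^ m / m) * ψ T| ≤
        C₀ * (1 + D.natDegree) * √((Nat.card k : ℝ) ^ m) := by
      intro T hT
      rw [← sub_mul, abs_mul]
      calc _ ≤ (C₀ * (1 + D.natDegree) * √((Nat.card k : ℝ) ^ m)) * 1 :=
            mul_le_mul (hcount T hT) (hψ1 T) (abs_nonneg _) (by positivity)
        _ = _ := mul_one _
    refine (Finset.sum_le_sum h3).trans (le_of_eq ?_)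
    rw [Finset.sum_const, Finset.card_powerset, nsmul_eq_mul]
    push_cast
    ring
  refine le_trans (le_of_eq ?_) hfin
  congr!

end Run7.h908.PL
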