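import Pool.Agent.Run7.h286.PL.StmA
import Pool.Agent.Run7.h908.TG.KILL2

/-!
# Project PRL: KILL2 (helper908)
-/

set_option autoImplicit false
set_option linter.all false

open Polynomial IsDedekindDomain
open scoped Classical

namespace Run7.h908.PL

open Pool.Agent.N874.PP (Ov Ev Sq1)
open Pool.Agent.N352.PJ (IsGen Crd LocIm SelZero Fam GoodR Ht dsc)
open Run7.h875.TS (chi cd IsPC GSq irrD dg NRs uT sqf prD sqL sz Tr)
open Run7.h784.TG
open Run7.h286.PL
open Run7.h908.TG (c2)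

theorem c2_eq (g : ℕ) : c2 g = del1 g := by
  unfold c2 del1
  refine Finset.sum_congr rfl fun i hi => ?_
  obtain ⟨h1, h2⟩ := Finset.mem_Icc.1 hi
  rw [Nat.cast_sub (by omega)]
  push_cast
  ring

/-- Division by `m`. -/
theorem div_m {m : ℕ} (hm : 0 < m) {n c Y E : ℝ} (hE : 0 ≤ E) (h : |(m : ℝ) * n - c * Y| ≤ E) :
    |n - c * Y / m| ≤ E := by
  have hm1 : (1 : ℝ) ≤ m := by exact_mod_cast hm
  have e1 : n - c * Y / m = ((m : ℝ) * n - c * Y) / m := by
    field_simp
  rw [e1, abs_div, abs_of_pos (by linarith : (0 : ℝ) < m), div_le_iff₀ (by linarith)]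
  nlinarith

theorem T_KILL2 (hW : P_W) (hStk : P_STK) (hDic : P_DIC) (hComb : P_COMB) :
    Run7.h286.PL.P_KILL2 := by
  intro k _ _ g N r f hf hfull
  obtain ⟨C₁, h1⟩ := Run7.h908.TG.nr2 hW hStk hDic hComb k g N r f hf hfull
  obtain ⟨C₂, h2⟩ := Run7.h908.TG.kill2 hW hStk hDic hComb k g N r f hf hfull
  refine ⟨C₁ + C₂, ?_⟩
  intro K L O _ _ _ _ _ _ _ _ _ _ _ _ _ _ θ hgen
  refine ⟨?_, ?_⟩
  · intro m hm
    have h3 := h1 K L O θ hgen m hm
    rw [c2_eq] at h3
    have h4 := div_m hm (by positivity) h3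
    refine le_trans ?_ (h4.trans ?_)
    · apply le_of_eq; congr!
    · push_cast
      have : (0 : ℝ) ≤ C₂ * √((Nat.card k : ℝ) ^ m) := by positivity
      nlinarith
  · intro α z N' hα hsq hnsq hcrd hz m hm
    have h3 := h2 K L O θ hgen α z N' hα hsq hnsq hcrd hz m hm
    rw [c2_eq] at h3
    have h4 := div_m hm (by positivity) h3
    refine le_trans ?_ (h4.trans ?_)
    · apply le_of_eq; congr!
    · push_cast
      have : (0 : ℝ) ≤ C₁ * (1 + N') * √((Nat.card k : ℝ) ^ m) := by positivity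
      nlinarith

end Run7.h908.PL
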