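import Pool.Agent.Run7.h303.PL.STP

/-!
# Project PRL: NAT (helper908)
-/

set_option autoImplicit false
set_option linter.all false

open Polynomial IsDedekindDomain
open scoped Classical

namespace Run7.h908.PL

open Pool.Agent.N874.PP (Ov Ev Sq1)
open Pool.Agent.N352.PJ (IsGen Crd LocIm SelZero Fam GoodR Ht dsc)
open Run7.h875.TS (chi cd IsPC GSq irrD dg NRs uT sqf prD sqL sz Tr)
open Run7.h550.TS (mem_prD prD_mul sqf_fin mem_irrD)
open Run7.h303.PL (mem_sqF card_sqF q_three av_const av_abs_one geo_tail)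
open Run7.h784.TG
open Run7.h286.PL
open Filter Topology

theorem tendsto_sqrt : Tendsto (fun n : ℕ => Nat.sqrt n) atTop atTop := by
  rw [tendsto_atTop]
  intro b
  filter_upwards [eventually_ge_atTop (b * b)] with n hn
  exact Nat.le_sqrt.2 hn

/-- The error terms tend to zero. -/
theorem err_tend (q δ C C' : ℝ) (hq : 3 ≤ q) (hδ : 0 < δ) :
    Tendsto (fun N : ℕ => C * (((Nat.sqrt N : ℕ) : ℝ) / N) ^ δ +
      C' * (1 + N) ^ 2 * (√q)⁻¹ ^ (Nat.sqrt N)) atTop (𝓝 0) := by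
  have h1 : Tendsto (fun N : ℕ => (((Nat.sqrt N : ℕ) : ℝ) / N) ^ δ) atTop (𝓝 0) := by
    have h2 : Tendsto (fun N : ℕ => (((Nat.sqrt N : ℕ) : ℝ) / N)) atTop (𝓝 0) := by
      have h3 : Tendsto (fun N : ℕ => ((Nat.sqrt N : ℕ) : ℝ)⁻¹) atTop (𝓝 0) :=
        tendsto_inv_atTop_zero.comp (tendsto_natCast_atTop_atTop.comp tendsto_sqrt)
      refine squeeze_zero (fun N => by positivity) (fun N => ?_) h3
      rcases Nat.eq_zero_or_pos N with h | h
      · rw [h]; simp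
      · have h4 : 0 < Nat.sqrt N := Nat.sqrt_pos.2 h
        have h4' : (0 : ℝ) < ((Nat.sqrt N : ℕ) : ℝ) := by exact_mod_cast h4
        have h' : (0 : ℝ) < N := by exact_mod_cast h
        rw [div_le_iff₀ h', inv_mul_eq_div, le_div_iff₀ h4']
        exact_mod_cast Nat.sqrt_le N
    have h5 := h2.rpow_const (p := δ) (Or.inr hδ.le)
    rwa [Real.zero_rpow hδ.ne'] at h5
  have h2 : Tendsto (fun N : ℕ => C' * (1 + N) ^ 2 * (√q)⁻¹ ^ (Nat.sqrt N)) atTop (𝓝 0) := by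
    set x : ℝ := (√q)⁻¹ with hx
    have hs : (3 / 2 : ℝ) ≤ √q := by
      refine Real.le_sqrt_of_sq_le ?_
      linarith
    have hx0 : 0 < x := by rw [hx]; positivity
    have hx1 : x < 1 := by
      rw [hx]
      exact inv_lt_one_of_one_lt₀ (by linarith)
    have h3 := (tendsto_pow_const_mul_const_pow_of_abs_lt_one 4
      (show |x| < 1 by rw [abs_of_pos hx0]; exact hx1))
    have h4 : Tendsto (fun N : ℕ => |C'| * x⁻¹ * ((((Nat.sqrt N + 1 : ℕ) : ℝ)) ^ 4 *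
        x ^ (Nat.sqrt N + 1))) atTop (𝓝 (|C'| * x⁻¹ * 0)) :=
      (h3.comp (tendsto_atTop_mono (fun N => Nat.le_succ _) tendsto_sqrt)).const_mul _
    rw [mul_zero] at h4
    refine squeeze_zero_norm (fun N => ?_) h4
    rw [Real.norm_eq_abs, abs_mul, abs_mul, abs_of_nonneg (by positivity : (0:ℝ) ≤ (1 + (N:ℝ)) ^ 2),
      abs_of_nonneg (by positivity : (0:ℝ) ≤ x ^ (Nat.sqrt N))]
    have h5 : (1 + (N : ℝ)) ≤ (((Nat.sqrt N + 1 : ℕ) : ℝ)) ^ 2 := by
      have : 1 + N ≤ (Nat.sqrt N + 1) ^ 2 := by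
        have := Nat.lt_succ_sqrt N
        rw [Nat.succ_eq_add_one] at this
        nlinarith
      exact_mod_cast this
    have h6 : (1 + (N : ℝ)) ^ 2 ≤ (((Nat.sqrt N + 1 : ℕ) : ℝ)) ^ 4 := by
      calc (1 + (N : ℝ)) ^ 2 ≤ ((((Nat.sqrt N + 1 : ℕ) : ℝ)) ^ 2) ^ 2 :=
            pow_le_pow_left₀ (by positivity) h5 2
        _ = _ := by rw [← pow_mul]
    have h7 : x⁻¹ * x ^ (Nat.sqrt N + 1) = x ^ (Nat.sqrt N) := by
      rw [pow_succ]
      field_simp
    calc |C'| * (1 + (N : ℝ)) ^ 2 * x ^ (Nat.sqrt N) ≤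
        |C'| * (((Nat.sqrt N + 1 : ℕ) : ℝ)) ^ 4 * x ^ (Nat.sqrt N) := by
          refine mul_le_mul_of_nonneg_right (mul_le_mul_of_nonneg_left h6 (abs_nonneg _))
            (by positivity)
      _ = _ := by rw [← h7]; ring
  have h3 := (h1.const_mul C).add h2
  rwa [mul_zero, add_zero] at h3

/-- **NAT**. -/
theorem T_NAT (hS0 : P_S0) (hS1 : P_S1) (hREM : P_REM) (hRAN : P_RAN) (hDIV : P_DIV) : P_NAT := by
  intro k K L O _ _ _ _ _ _ _ _ _ _ _ _ _ _ _ _ g N₁ r f θ hF hFull hθ nrs hnrs φ hφ ε hε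
  obtain ⟨hS1, -⟩ := hS1 k K L O g N₁ r f θ hF hFull hθ nrs hnrs
  obtain ⟨C₀, hS0⟩ := hS0 k K L O g N₁ r f θ hF hFull hθ nrs hnrs
  have hq := q_three hF.two
  set q : ℝ := (Nat.card k : ℝ) with hqdef
  have hq0 : (0 : ℝ) < q := by linarith
  have hB : dsc g f ≠ 0 := hF.fam.sq.ne_zero
  have hδ : 0 < del0 g := by unfold del0; positivity
  set τ : k[X] → Prop := fun Q => nr O Q = 1 with hτ
  -- the number of the primes
  have hcntA : ∀ D : k[X], D.Monic → Squarefree D → IsCoprime D (dsc g f) → ∀ m : ℕ, 0 < m →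
      |(((irrD k m).filter (fun Q => nr O Q = 1 ∧ ¬ Q ∣ D ∧ ¬ Q ∣ dsc g f)).card : ℝ) -
        del0 g * q ^ m / m| ≤ C₀ * 2 ^ (prD D).card * (1 + D.natDegree) * √(q ^ m) := by
    intro D h1 h2 h3 m hm
    have h4 := hS0 (fun _ => 1) (fun _ => by norm_num) D h1 h2 h3 m hm
    rw [av_const, mul_one, Finset.sum_const, nsmul_eq_mul, mul_one] at h4
    exact h4
  have hprone : (prD (1 : k[X])).card = 0 := by
    rw [Finset.card_eq_zero, Finset.eq_empty_iff_forall_notMem]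
    intro P hP
    obtain ⟨h1, h2, h3⟩ := (mem_prD one_ne_zero).1 hP
    exact h2.not_isUnit (isUnit_of_dvd_one h3)
  obtain ⟨C₁, hRAN⟩ := hRAN k (dsc g f) hF.two hB τ (del0 g) C₀ hδ.le (by
    intro m hm
    have h1 := hcntA 1 monic_one squarefree_one isCoprime_one_left m hm
    rw [hprone, natDegree_one] at h1
    have h2 := (abs_le.1 h1).1
    have h3 : (((irrD k m).filter (fun Q => nr O Q = 1 ∧ ¬ Q ∣ (1 : k[X]) ∧ ¬ Q ∣ dsc g f)).card : ℝ) ≤
        (((irrD k m).filter τ).card : ℝ) := by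
      have : ((irrD k m).filter (fun Q => nr O Q = 1 ∧ ¬ Q ∣ (1 : k[X]) ∧ ¬ Q ∣ dsc g f)) ⊆
          (irrD k m).filter τ := by
        intro Q hQ
        rw [Finset.mem_filter] at hQ ⊢
        exact ⟨hQ.1, hQ.2.1⟩
      exact_mod_cast Finset.card_le_card this
    have h4 : (C₀ : ℝ) * 2 ^ 0 * (1 + ((0 : ℕ) : ℝ)) * √(q ^ m) = C₀ * √(q ^ m) := by
      push_cast; ring
    rw [h4] at h2
    have h5 : del0 g * q ^ m / m - C₀ * √(q ^ m) ≤ (((irrD k m).filter τ).card : ℝ) := by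
      linarith
    refine h5.trans (le_of_eq ?_)
    congr!)
  -- the choice of `N₀`
  have htend := err_tend q (del0 g) (2 * C₁) (4 * C₀) hq hδ
  have hev := (htend.eventually (gt_mem_nhds hε)).and (eventually_ge_atTop 1)
  obtain ⟨N₀, hN₀⟩ := eventually_atTop.1 hev
  refine ⟨N₀, fun N hN => ?_⟩
  obtain ⟨hsmall, hN1⟩ := hN₀ N hN
  set M : ℕ := Nat.sqrt N with hM
  have hM1 : 1 ≤ M := Nat.sqrt_pos.2 hN1
  have hMN : M ≤ N := Nat.sqrt_le_self N
  set b : k[X] → ℕ := fun D => ((prD D).filter fun Q => τ Q ∧ M < Q.natDegree).card with hb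
  set G : k[X] → ℝ := fun D => φ (dimS O K f θ D) - av O K f θ nrs φ (prD D) with hG
  have hG2 : ∀ D, |G D| ≤ 2 := by
    intro D
    have h1 := abs_le.1 (hφ (dimS O K f θ D))
    have h2 := abs_le.1 (av_abs_one (O := O) (K := K) f θ nrs hφ (prD D))
    rw [hG, abs_le]
    dsimp only
    constructor <;> linarith
  have hsplit : ∑ D ∈ sqF (dsc g f) N, G D = ∑ D ∈ sqF (dsc g f) N, (0 : ℝ) ^ (b D) * G D +
      ∑ D ∈ sqF (dsc g f) N, ∑ Q ∈ (prD D).filter (fun Q => τ Q ∧ M < Q.natDegree), G D / b D := by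
    rw [← Finset.sum_add_distrib]
    refine Finset.sum_congr rfl fun D _ => ?_
    rw [Finset.sum_const, nsmul_eq_mul]
    have hbD : ((prD D).filter fun Q => τ Q ∧ M < Q.natDegree).card = b D := rfl
    rw [hbD]
    rcases Nat.eq_zero_or_pos (b D) with h | h
    · rw [h]; simp
    · have h' : (b D : ℝ) ≠ 0 := by positivity
      rw [zero_pow h.ne', zero_mul, zero_add]
      field_simp
  -- the `D` with `b = 0`
  have hzero : |∑ D ∈ sqF (dsc g f) N, (0 : ℝ) ^ (b D) * G D| ≤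
      2 * C₁ * ((M : ℝ) / N) ^ (del0 g) * q ^ N := by
    have h1 := hRAN 0 le_rfl zero_le_one M N hM1 hMN
    rw [sub_zero, one_mul] at h1
    refine (Finset.abs_sum_le_sum_abs _ _).trans ?_
    have h2 : ∀ D ∈ sqF (dsc g f) N, |(0 : ℝ) ^ (b D) * G D| ≤ 2 * (0 : ℝ) ^ (b D) := by
      intro D _
      rw [abs_mul, abs_of_nonneg (by positivity), mul_comm]
      exact mul_le_mul_of_nonneg_right (hG2 D) (by positivity)
    refine (Finset.sum_le_sum h2).trans ?_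
    rw [← Finset.mul_sum]
    calc 2 * ∑ D ∈ sqF (dsc g f) N, (0 : ℝ) ^ (b D) ≤
        2 * (C₁ * q ^ N * ((M : ℝ) / N) ^ (del0 g)) := by
          refine mul_le_mul_of_nonneg_left ?_ (by norm_num)
          refine le_trans (le_of_eq ?_) h1
          refine Finset.sum_congr rfl fun D _ => ?_
          congr!
      _ = _ := by ring
  -- the removal
  have hrem := hREM k (dsc g f) hF.two hB N (fun Q => τ Q ∧ M < Q.natDegree) (fun D _ => G D / b D)
  have hremL : ∑ D ∈ sqF (dsc g f) N, ∑ Q ∈ (prD D).filter (fun Q => τ Q ∧ M < Q.natDegree),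
      G D / b D = ∑ m ∈ Finset.Icc 1 N, ∑ D ∈ sqF (dsc g f) (N - m),
      ∑ Q ∈ (irrD k m).filter (fun Q => (τ Q ∧ M < Q.natDegree) ∧ ¬ Q ∣ D ∧ ¬ Q ∣ dsc g f),
        G (D * Q) / b (D * Q) := by
    refine Eq.trans ?_ (hrem.trans ?_)
    · refine Finset.sum_congr rfl fun D _ => ?_
      congr!
    · refine Finset.sum_congr rfl fun m _ => Finset.sum_congr rfl fun D _ => ?_
      congr!
  have h1 : ∀ m ∈ Finset.Icc 1 N, ∑ D ∈ sqF (dsc g f) (N - m),
      ∑ Q ∈ (irrD k m).filter (fun Q => (τ Q ∧ M < Q.natDegree) ∧ ¬ Q ∣ D ∧ ¬ Q ∣ dsc g f),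
        G (D * Q) / b (D * Q) =
      if M < m then ∑ D ∈ sqF (dsc g f) (N - m), (1 / (b D + 1 : ℝ)) *
        ∑ Q ∈ (irrD k m).filter (fun Q => nr O Q = 1 ∧ ¬ Q ∣ D ∧ ¬ Q ∣ dsc g f), G (D * Q) else 0 := by
    intro m hm
    split_ifs with hMm
    · refine Finset.sum_congr rfl fun D hD => ?_
      rw [mem_sqF] at hD
      rw [Finset.mul_sum]
      have hset : (irrD k m).filter (fun Q => (τ Q ∧ M < Q.natDegree) ∧ ¬ Q ∣ D ∧ ¬ Q ∣ dsc g f) =
          (irrD k m).filter (fun Q => nr O Q = 1 ∧ ¬ Q ∣ D ∧ ¬ Q ∣ dsc g f) := by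
        ext Q
        rw [Finset.mem_filter, Finset.mem_filter]
        refine and_congr_right fun hQ => ?_
        rw [mem_irrD] at hQ
        constructor
        · rintro ⟨⟨a, b⟩, c, d⟩
          exact ⟨a, c, d⟩
        · rintro ⟨a, c, d⟩
          exact ⟨⟨a, by rw [hQ.2.2]; exact hMm⟩, c, d⟩
      rw [hset]
      refine Finset.sum_congr rfl fun Q hQ => ?_
      rw [Finset.mem_filter, mem_irrD] at hQ
      have hbm : b (D * Q) = b D + 1 := by
        rw [hb]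
        dsimp only
        rw [prD_mul hD.1 hQ.1.1 hQ.1.2.1, Finset.filter_insert,
          if_pos ⟨hQ.2.1, by rw [hQ.1.2.2]; exact hMm⟩, Finset.card_insert_of_notMem]
        intro h
        exact hQ.2.2.1 ((mem_prD hD.1.ne_zero).1 (Finset.mem_filter.1 h).1).2.2
      rw [hbm]
      push_cast
      ring
    · refine Finset.sum_eq_zero fun D hD => ?_
      rw [Finset.filter_eq_empty_iff.2, Finset.sum_empty]
      rintro Q hQ ⟨h, -⟩
      rw [mem_irrD] at hQ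
      have := h.2
      omega
  have hIoc : (Finset.Icc 1 N).filter (fun m => M < m) = Finset.Ioc M N := by
    ext m
    simp only [Finset.mem_filter, Finset.mem_Icc, Finset.mem_Ioc]
    omega
  have hinner : ∀ m ∈ Finset.Ioc M N, ∀ D ∈ sqF (dsc g f) (N - m),
      |(1 / (b D + 1 : ℝ)) *
        ∑ Q ∈ (irrD k m).filter (fun Q => nr O Q = 1 ∧ ¬ Q ∣ D ∧ ¬ Q ∣ dsc g f), G (D * Q)| ≤
      2 * C₀ * (1 + N) * √(q ^ m) * 2 ^ (prD D).card := by
    intro m hm D hD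
    rw [Finset.mem_Ioc] at hm
    have hm0 : 0 < m := by omega
    obtain ⟨hD1, hD2, hD3, hD4⟩ := mem_sqF.1 hD
    have e1 := hS0 φ hφ D hD1 hD3 hD4 m hm0
    have e2 := hcntA D hD1 hD3 hD4 m hm0
    set A : Finset k[X] := (irrD k m).filter (fun Q => nr O Q = 1 ∧ ¬ Q ∣ D ∧ ¬ Q ∣ dsc g f) with hA
    set av0 : ℝ := av O K f θ nrs φ (prD D) with hav0
    have hav1 : |av0| ≤ 1 := av_abs_one (O := O) (K := K) f θ nrs hφ (prD D)
    have hF2 : ∑ Q ∈ A, av O K f θ nrs φ (prD (D * Q)) = A.card * av0 := by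
      rw [← nsmul_eq_mul, ← Finset.sum_const]
      refine Finset.sum_congr rfl fun Q hQ => ?_
      rw [hA, Finset.mem_filter, mem_irrD] at hQ
      obtain ⟨⟨q1, q2, q3⟩, q4, q5, q6⟩ := hQ
      rw [prD_mul hD1 q1 q2]
      refine hS1 φ (prD D) ?_ Q q1 q2 ?_ q6 q4
      · intro P hP
        rw [mem_prD hD1.ne_zero] at hP
        exact ⟨hP.1, hP.2.1, fun h => hP.2.1.not_isUnit (hD4.isUnit_of_dvd' hP.2.2 h)⟩
      · intro h
        exact q5 ((mem_prD hD1.ne_zero).1 h).2.2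
    set X : ℝ := C₀ * 2 ^ (prD D).card * (1 + D.natDegree) * √(q ^ m) with hX
    have hdiff : |∑ Q ∈ A, G (D * Q)| ≤ 2 * X := by
      have e3 : ∑ Q ∈ A, G (D * Q) = (∑ Q ∈ A, φ (dimS O K f θ (D * Q)) - del0 g * q ^ m / m * av0) -
          ((A.card : ℝ) - del0 g * q ^ m / m) * av0 := by
        rw [hG]
        dsimp only
        rw [Finset.sum_sub_distrib, hF2]
        ring
      have e4 : |((A.card : ℝ) - del0 g * q ^ m / m) * av0| ≤ X := by
        rw [abs_mul]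
        calc _ ≤ X * 1 := mul_le_mul e2 hav1 (abs_nonneg _) (by positivity)
          _ = X := mul_one _
      rw [e3]
      have e5 := abs_le.1 e1
      have e6 := abs_le.1 e4
      rw [abs_le]
      constructor <;> linarith
    have hb1 : |(1 / (b D + 1 : ℝ))| ≤ 1 := by
      rw [abs_of_nonneg (by positivity), div_le_one (by positivity)]
      have : (0 : ℝ) ≤ b D := by positivity
      linarith
    rw [abs_mul]
    calc |(1 / (b D + 1 : ℝ))| * |∑ Q ∈ A, G (D * Q)| ≤ 1 * (2 * X) :=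
          mul_le_mul hb1 hdiff (abs_nonneg _) zero_le_one
      _ = 2 * C₀ * (1 + D.natDegree) * √(q ^ m) * 2 ^ (prD D).card := by rw [hX]; ring
      _ ≤ 2 * C₀ * (1 + N) * √(q ^ m) * 2 ^ (prD D).card := by
          have : (D.natDegree : ℝ) ≤ N := by
            rw [hD2]
            exact_mod_cast Nat.sub_le N m
          gcongr
  have hm_bound : ∀ m ∈ Finset.Ioc M N, |∑ D ∈ sqF (dsc g f) (N - m), (1 / (b D + 1 : ℝ)) *
        ∑ Q ∈ (irrD k m).filter (fun Q => nr O Q = 1 ∧ ¬ Q ∣ D ∧ ¬ Q ∣ dsc g f), G (D * Q)| ≤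
      2 * C₀ * (1 + N) ^ 2 * q ^ N * (√q)⁻¹ ^ m := by
    intro m hm
    refine (Finset.abs_sum_le_sum_abs _ _).trans ((Finset.sum_le_sum (hinner m hm)).trans ?_)
    rw [← Finset.mul_sum]
    obtain ⟨-, hdiv, -⟩ := hDIV k (dsc g f) hF.two hB (N - m)
    rw [Finset.mem_Ioc] at hm
    have h2 : ((N - m : ℕ) : ℝ) + 1 ≤ 1 + N := by
      have : ((N - m : ℕ) : ℝ) ≤ N := by exact_mod_cast Nat.sub_le N m
      linarith
    have h3 : √(q ^ m) = (√q) ^ m := by
      rw [Real.sqrt_eq_rpow, Real.sqrt_eq_rpow, ← Real.rpow_natCast, ← Real.rpow_natCast,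
        ← Real.rpow_mul hq0.le, ← Real.rpow_mul hq0.le, mul_comm]
    have h4 : q ^ N = q ^ (N - m) * ((√q) ^ m * (√q) ^ m) := by
      rw [← mul_pow, Real.mul_self_sqrt hq0.le, ← pow_add]
      congr 1
      omega
    have hs0 : (√q) ^ m ≠ 0 := by positivity
    calc 2 * C₀ * (1 + N) * √(q ^ m) * ∑ D ∈ sqF (dsc g f) (N - m), (2 : ℝ) ^ (prD D).card ≤
        2 * C₀ * (1 + N) * √(q ^ m) * ((((N - m : ℕ) : ℝ) + 1) * q ^ (N - m)) :=
          mul_le_mul_of_nonneg_left hdiv (by positivity)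
      _ ≤ 2 * C₀ * (1 + N) * √(q ^ m) * ((1 + N) * q ^ (N - m)) := by gcongr
      _ = _ := by
          rw [h3, h4, inv_pow]
          field_simp
  have hpos : |∑ D ∈ sqF (dsc g f) N, ∑ Q ∈ (prD D).filter (fun Q => τ Q ∧ M < Q.natDegree),
      G D / b D| ≤ 4 * C₀ * (1 + N) ^ 2 * (√q)⁻¹ ^ M * q ^ N := by
    rw [hremL, Finset.sum_congr rfl h1, ← Finset.sum_filter, hIoc]
    refine (Finset.abs_sum_le_sum_abs _ _).trans ((Finset.sum_le_sum hm_bound).trans ?_)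
    rw [← Finset.mul_sum]
    have h2 := geo_tail q hq M N
    calc 2 * C₀ * (1 + (N : ℝ)) ^ 2 * q ^ N * ∑ m ∈ Finset.Ioc M N, (√q)⁻¹ ^ m ≤
        2 * C₀ * (1 + (N : ℝ)) ^ 2 * q ^ N * (2 * (√q)⁻¹ ^ M) :=
          mul_le_mul_of_nonneg_left h2 (by positivity)
      _ = _ := by ring
  rw [← Finset.sum_sub_distrib]
  have hfin : |∑ D ∈ sqF (dsc g f) N, G D| ≤ ε * q ^ N := by
    rw [hsplit]
    refine (abs_add_le _ _).trans ((add_le_add hzero hpos).trans ?_)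
    rw [← add_mul]
    exact mul_le_mul_of_nonneg_right hsmall.le (by positivity)
  exact hfin

end Run7.h908.PL
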